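import Pool.Agent.Helper11.PV.St2
import Pool.Agent.Helper74.PV.M_BAI

/-!
# Project PV (MP_e12aa9_pr), module LCH: average over `n`
-/

set_option autoImplicit false

namespace Pool.Agent.Helper11.PV

open Finset Filter MeasureTheory Pool.Agent.Helper82.CN

theorem tLCH (hLOC : StLOC) : StLCH := by
  intro p₀ p₁ h0 h1 h2
  obtain ⟨C, hC, hL⟩ := hLOC p₀ p₁ h0 h1 h2
  refine ⟨2 * C, by positivity, fun a b ha hab hb => ?_⟩
  obtain ⟨n₀, hn₀⟩ := hL a b ha hab hb
  have hba : 0 < b - a := by linarith
  obtain ⟨t, ht⟩ : ∃ t : ℕ → ℝ, t = fun n => (∫ p in a..b, vn p n) * (Real.log n ^ 3 / n) :=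
    ⟨_, rfl⟩
  obtain ⟨M, hM⟩ : ∃ M : ℝ, M = ∑ n ∈ range n₀, |t n| := ⟨_, rfl⟩
  have hM0 : 0 ≤ M := by rw [hM]; exact Finset.sum_nonneg fun _ _ => abs_nonneg _
  have hint : ∀ N : ℕ, ∫ p in a..b, hh N p = (∑ n ∈ Icc 2 N, t n) / N := by
    intro N
    unfold hh
    rw [intervalIntegral.integral_div, intervalIntegral.integral_finset_sum]
    · congr 1
      refine Finset.sum_congr rfl fun n _ => ?_
      rw [ht, intervalIntegral.integral_mul_const]
    · intro n _
      exact ((Pool.Agent.Helper74.PV.cvn n).mul continuous_const).intervalIntegrable _ _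
  have hterm : ∀ n : ℕ, 2 ≤ n → t n ≤ |if n < n₀ then t n else 0| + C * (b - a) := by
    intro n hn
    by_cases h : n < n₀
    · rw [if_pos h]
      have h3 := le_abs_self (t n)
      have h4 : 0 ≤ C * (b - a) := by positivity
      linarith
    · rw [if_neg h, abs_zero, zero_add]
      have h3 := hn₀ n (by omega)
      have hn0 : (0 : ℝ) < n := by
        have : 0 < n := by omega
        exact_mod_cast this
      have hl : 0 < Real.log n := Real.log_pos (by exact_mod_cast (by omega : 1 < n))
      rw [ht]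
      simp only
      calc (∫ p in a..b, vn p n) * (Real.log n ^ 3 / n) ≤
            C * (b - a) * (n / Real.log n ^ 3) * (Real.log n ^ 3 / n) :=
            mul_le_mul_of_nonneg_right h3 (by positivity)
        _ = C * (b - a) := by field_simp
  have hsum : ∀ N : ℕ, ∑ n ∈ Icc 2 N, t n ≤ M + N * (C * (b - a)) := by
    intro N
    have h3 : ∑ n ∈ Icc 2 N, t n ≤
        ∑ n ∈ Icc 2 N, (|if n < n₀ then t n else 0| + C * (b - a)) :=
      Finset.sum_le_sum fun n hn => hterm n (mem_Icc.1 hn).1
    refine h3.trans ?_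
    rw [Finset.sum_add_distrib, Finset.sum_const, nsmul_eq_mul]
    refine add_le_add ?_ ?_
    · rw [hM]
      have h4 : ∑ n ∈ Icc 2 N, |if n < n₀ then t n else 0| =
          ∑ n ∈ (Icc 2 N).filter (fun n => n < n₀), |t n| := by
        rw [Finset.sum_filter]
        refine Finset.sum_congr rfl fun n _ => ?_
        split_ifs
        · rfl
        · exact abs_zero
      rw [h4]
      refine Finset.sum_le_sum_of_subset_of_nonneg ?_ fun _ _ _ => abs_nonneg _
      intro n hn
      rw [mem_filter] at hn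
      exact mem_range.2 hn.2
    · refine mul_le_mul_of_nonneg_right ?_ (by positivity)
      rw [Nat.card_Icc]
      exact_mod_cast (by omega : N + 1 - 2 ≤ N)
  obtain ⟨N₀, hN₀⟩ := exists_nat_gt (M / (C * (b - a)))
  refine ⟨N₀ + 1, fun N hN => ?_⟩
  have hNpos : (0 : ℝ) < N := by
    have : 0 < N := by omega
    exact_mod_cast this
  rw [hint, div_le_iff₀ hNpos]
  refine (hsum N).trans ?_
  have hCb : 0 < C * (b - a) := by positivity
  have h5 : M ≤ N * (C * (b - a)) := by
    have h6 : M / (C * (b - a)) ≤ N := by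
      have : (N₀ : ℝ) ≤ N := by exact_mod_cast (by omega : N₀ ≤ N)
      linarith
    rw [div_le_iff₀ hCb] at h6
    exact h6
  linarith

end Pool.Agent.Helper11.PV
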