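import Pool.Agent.Helper3.PV.M_RAM
import Pool.Agent.Helper12.PV.M_INF
import Pool.Agent.Helper15.PV.M_LSI
import Pool.Agent.Helper17.PV.M_SYM
import Pool.Agent.Helper26.PV.M_CMP
import Pool.Agent.Helper11.PV.M_LCH
import Pool.Agent.Helper29.PV.M_LIM
import Pool.Agent.Helper37.PV.M_LLI
import Pool.Agent.Helper37.PV.M_MKV
import Pool.Agent.Helper40.PV.M_PT2
import Pool.Agent.Helper72.PV.M_AEB
import Pool.Agent.Helper72.PV.M_LLG
import Pool.Agent.Helper74.PV.M_BAI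
import Pool.Agent.Helper79.PV.M_PIV
import Pool.Agent.Helper82.PV.M_PHB
import Pool.Agent.Helper82.PV.M_RUS
import Pool.Agent.Helper84.PV.M_ENL
import Pool.Agent.Helper93.PV.M_LOC
import Pool.Agent.Helper94.PV.M_UBD
import Pool.Agent.Helper98.PV.M_NUM
import Pool.Agent.Helper87.CN.M_BRG
import Pool.Agent.Helper82.CN.All

/-!
# Project PV (MP_e12aa9_pr): assembly of the modules
-/

set_option autoImplicit false

namespace Pool.Agent.Helper11.PV

theorem aBRG : Pool.Agent.Helper82.CN.StBrg := Pool.Agent.Helper87.CN.tBRG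
theorem aLLI : StLLI := Pool.Agent.Helper37.PV.tLLI Pool.Agent.Helper84.PV.tENL Pool.Agent.Helper15.PV.tLSI
theorem aLLG : StLLG := Pool.Agent.Helper72.PV.tLLG aLLI
theorem aPHB : StPHB := Pool.Agent.Helper82.PV.tPHB
theorem aPIV : StPIV := Pool.Agent.Helper79.PV.tPIV aPHB
theorem aINF : StINF := Pool.Agent.Helper12.PV.tINF aPIV Pool.Agent.Helper94.PV.tUBD
theorem aCMP : StCMP :=
  Pool.Agent.Helper26.PV.tCMP aPHB Pool.Agent.Helper3.PV.tRAM Pool.Agent.Helper94.PV.tUBD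
    Pool.Agent.Helper98.PV.tNUM
theorem aPT2 : StPT2 :=
  Pool.Agent.Helper40.PV.tPT2 aLLG aPIV Pool.Agent.Helper17.PV.tSYM aINF aCMP
theorem aLIM : StLIM :=
  Pool.Agent.Helper29.PV.tLIM Pool.Agent.Helper82.CN.aLOW Pool.Agent.Helper82.CN.aUPP
theorem aLOC : StLOC :=
  Pool.Agent.Helper93.PV.tLOC aPT2 Pool.Agent.Helper82.PV.tRUS aPHB aLIM
theorem aLCH : StLCH := tLCH aLOC
theorem aAEB : StAEB := Pool.Agent.Helper72.PV.tAEB aLCH
theorem aBAI : StBAI := Pool.Agent.Helper74.PV.tBAI aLCH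
theorem aMKV : StMKV := Pool.Agent.Helper37.PV.tMKV

end Pool.Agent.Helper11.PV
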