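import Pool.Agent.Helper82.CN.Lib

/-!
# Project PV (MP_e12aa9_pr): the variance of the chromatic number of `G(n,p)` on average over `p`

THEOREM. For `0 < p₀ < p₁ < 1` there is `C` with `∫_{p₀}^{p₁} Var χ(G(n,p)) dp ≤ C n / (log n)³` for all `n ≥ 2`.

`Ph l G` = least value of `l k + |U|`, where `G - U` is `k`-colourable (leftover functional). It is monotone, changes by at most `1`
when an edge is added, is at most `n`, and `l χ - l n^{1/4} ≤ Ph l ≤ l χ` if every set of `n^{1/4}` vertices contains `l + 1` independent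
vertices (`l = c log n`). Its total edge influence `II l n p = (d/dp) E Ph` integrates over `p` to at most `n`, each single influence is
`II / (n choose 2)`, and the `L¹-L²` inequality gives `Var Ph ≤ C II / log n`.
-/

set_option autoImplicit false

namespace Pool.Agent.Helper11.PV

open Finset Pool.Agent.Helper82.CN

/-- difference in the bit `i` -/
def DD {ι : Type} [DecidableEq ι] (F : (ι → Bool) → ℝ) (i : ι) (ω : ι → Bool) : ℝ :=
  F (Function.update ω i true) - F (Function.update ω i false)

/-- variance -/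
noncomputable def VV (p : ℝ) {ι : Type} [Fintype ι] [DecidableEq ι] (F : (ι → Bool) → ℝ) : ℝ :=
  EE p (fun ω => (F ω - EE p F) ^ 2)

/-- `G - U` is `k`-colourable -/
def PC {V : Type} (G : SimpleGraph V) (U : Finset V) (k : ℕ) : Prop :=
  ∃ c : V → ℕ, (∀ v, v ∉ U → c v < k) ∧ ∀ u v, u ∉ U → v ∉ U → G.Adj u v → c u ≠ c v

/-- the leftover functional: every colour costs `l`, every uncoloured vertex costs `1` -/
noncomputable def Ph {V : Type} (l : ℕ) (G : SimpleGraph V) : ℕ :=
  sInf {m | ∃ (U : Finset V) (k : ℕ), PC G U k ∧ m = l * k + U.card}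

/-- the leftover functional as a function of the bits -/
noncomputable def PH (l : ℕ) {V : Type} (ω : Sym2 V → Bool) : ℝ := (Ph l (gr ω) : ℝ)

/-- total influence -/
noncomputable def II (l n : ℕ) (p : ℝ) : ℝ := ∑ e : Sym2 (Fin n), EE p (DD (PH l) e)

open Classical in
/-- probability of an event -/
noncomputable def PP (p : ℝ) {ι : Type} [Fintype ι] [DecidableEq ι] (A : (ι → Bool) → Prop) : ℝ :=
  EE p (fun ω => if A ω then (1 : ℝ) else 0)

/-! ### induction on the number of bits -/

theorem EE_succ (p : ℝ) {N : ℕ} (F : (Fin (N + 1) → Bool) → ℝ) :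
    EE p F = (1 - p) * EE p (fun ω : Fin N → Bool => F (Fin.cons false ω)) +
      p * EE p (fun ω : Fin N → Bool => F (Fin.cons true ω)) := by
  unfold EE
  rw [← (Fin.consEquiv (fun _ : Fin (N + 1) => Bool)).sum_comp, Fintype.sum_prod_type]
  have e : ∀ (b : Bool) (ω : Fin N → Bool),
      (Fin.consEquiv (fun _ : Fin (N + 1) => Bool)) (b, ω) = Fin.cons b ω := fun _ _ => rfl
  simp only [Fintype.sum_bool, e, Fin.prod_univ_succ, Fin.cons_zero,
    Fin.cons_succ, bw, Finset.mul_sum]
  rw [add_comm]
  congr 1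
  · refine Finset.sum_congr rfl fun ω _ => ?_
    simp only [Bool.false_eq_true, if_false]
    ring
  · refine Finset.sum_congr rfl fun ω _ => ?_
    simp only [if_true]
    ring

theorem EE_zero (p : ℝ) (F : (Fin 0 → Bool) → ℝ) : EE p F = F Fin.elim0 := by
  unfold EE
  rw [Fintype.sum_unique, Fin.prod_univ_zero, one_mul]
  exact congrArg F (Subsingleton.elim _ _)

theorem DD_zero {N : ℕ} (F : (Fin (N + 1) → Bool) → ℝ) (b : Bool) (ω : Fin N → Bool) :
    DD F 0 (Fin.cons b ω) = F (Fin.cons true ω) - F (Fin.cons false ω) := by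
  unfold DD
  rw [Fin.update_cons_zero, Fin.update_cons_zero]

theorem DD_succ {N : ℕ} (F : (Fin (N + 1) → Bool) → ℝ) (b : Bool) (ω : Fin N → Bool) (i : Fin N) :
    DD F i.succ (Fin.cons b ω) = DD (fun η : Fin N → Bool => F (Fin.cons b η)) i ω := by
  unfold DD
  rw [← Fin.cons_update, ← Fin.cons_update]

end Pool.Agent.Helper11.PV
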