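import Pool.Agent.Helper11.PV.All

/-!
# The standard deviation of the chromatic number of `G(n,p)` is `O(√n / (log n)^{3/2})` for typical `p`
-/

set_option autoImplicit false

namespace Pool.Agent.Helper11.PV.OldTypical

open Finset Filter MeasureTheory

/-- Expectation of `F` over the binomial random graph `G(n,p)` on the vertex set `Fin n`. -/
noncomputable def expect (p : ℝ) (n : ℕ) (F : SimpleGraph (Fin n) → ℝ) : ℝ :=
  ∑ G : SimpleGraph (Fin n), p ^ G.edgeSet.ncard * (1 - p) ^ (n.choose 2 - G.edgeSet.ncard) * F G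

/-- The variance of the chromatic number of `G(n,p)`. -/
noncomputable def variance (p : ℝ) (n : ℕ) : ℝ :=
  expect p n (fun G => ((G.chromaticNumber.toNat : ℝ) -
    expect p n (fun H => (H.chromaticNumber.toNat : ℝ))) ^ 2)

/-- The standard deviation of the chromatic number of `G(n,p)` is at most `C √n / (log n)^{3/2}`. -/
def Bounded (C p : ℝ) (n : ℕ) : Prop :=
  √(variance p n) ≤ C * (√(n : ℝ) / Real.log n ^ ((3 : ℝ) / 2))

open Classical in
/-- `Bounded C p n` holds for infinitely many `n`, and, for every `ε > 0`, `Bounded (C / √ε) p n` fails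
for at most `ε N` of the numbers `n ∈ [2, N]`, for infinitely many `N`. -/
def Typical (C p : ℝ) : Prop :=
  (∃ᶠ n : ℕ in atTop, Bounded C p n) ∧ ∀ ε : ℝ, 0 < ε → ∃ᶠ N : ℕ in atTop,
    (((Icc 2 N).filter (fun n => ¬ Bounded (C / √ε) p n)).card : ℝ) ≤ ε * N

open Pool.Agent.Helper82.CN in
theorem variance_eq (p : ℝ) (n : ℕ) : variance p n = vn p n := by
  have h1 : expect p n (fun H => (H.chromaticNumber.toNat : ℝ)) = fn p n :=
    Pool.Agent.Helper11.PV.aBRG p n _
  unfold variance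
  rw [h1]
  exact Pool.Agent.Helper11.PV.aBRG p n _

open Pool.Agent.Helper82.CN in
theorem sigma_eq (p : ℝ) (n : ℕ) : √(variance p n) = sn p n := by
  rw [variance_eq]
  rfl

/-- if a bound holds for half of the numbers up to `N`, for infinitely many `N`, then it holds
infinitely often -/
theorem freq_of_count (A : ℕ → Prop) [DecidablePred A]
    (h : ∃ᶠ N : ℕ in atTop, (((Icc 2 N).filter (fun n => ¬ A n)).card : ℝ) ≤ 1 / 2 * N) :
    ∃ᶠ n : ℕ in atTop, A n := by
  by_contra hcon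
  rw [not_frequently, eventually_atTop] at hcon
  obtain ⟨n₁, hn₁⟩ := hcon
  rw [frequently_atTop] at h
  obtain ⟨N, hN, hc⟩ := h (2 * n₁ + 8)
  have h1 : Icc (n₁ + 2) N ⊆ (Icc 2 N).filter (fun n => ¬ A n) := by
    intro n hn
    rw [mem_Icc] at hn
    rw [mem_filter, mem_Icc]
    exact ⟨⟨by omega, hn.2⟩, hn₁ n (by omega)⟩
  have h2 := card_le_card h1
  rw [Nat.card_Icc] at h2
  have h3 : ((N + 1 - (n₁ + 2) : ℕ) : ℝ) ≤ 1 / 2 * N := le_trans (by exact_mod_cast h2) hc
  have h5 : ((N + 1 - (n₁ + 2) : ℕ) : ℝ) = (N : ℝ) + 1 - (n₁ + 2) := by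
    rw [Nat.cast_sub (by omega)]
    push_cast
    ring
  rw [h5] at h3
  have h6 : (2 * (n₁ : ℝ) + 8) ≤ N := by exact_mod_cast hN
  linarith

theorem term_nonneg (n : ℕ) : 0 ≤ √(n : ℝ) / Real.log n ^ ((3 : ℝ) / 2) :=
  div_nonneg (Real.sqrt_nonneg _) (Real.rpow_nonneg (Real.log_natCast_nonneg n) _)

theorem typical_of (K D p : ℝ) (h0 : 0 ≤ p) (h1 : p ≤ 1) (hK : 0 < K) (hD1 : √(2 * K) ≤ D)
    (h : ∃ᶠ N : ℕ in atTop, Pool.Agent.Helper11.PV.hh N p ≤ K) : Typical D p := by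
  classical
  have hm := Pool.Agent.Helper11.PV.aMKV p K h0 h1 hK h
  have key : ∀ ε : ℝ, 0 < ε → ∀ E : ℝ, √(K / ε) ≤ E → ∃ᶠ N : ℕ in atTop,
      (((Icc 2 N).filter (fun n => ¬ Bounded E p n)).card : ℝ) ≤ ε * N := by
    intro ε hε E hE
    refine (hm ε hε).mono fun N hN => le_trans ?_ hN
    have hsub : (Icc 2 N).filter (fun n => ¬ Bounded E p n) ⊆
        (Icc 2 N).filter (fun n : ℕ =>
          √(K / ε) * (√(n : ℝ) / Real.log n ^ ((3 : ℝ) / 2)) < Pool.Agent.Helper82.CN.sn p n) := by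
      intro n hn
      rw [mem_filter] at hn ⊢
      refine ⟨hn.1, ?_⟩
      have h3 := hn.2
      unfold Bounded at h3
      rw [not_le, sigma_eq] at h3
      exact lt_of_le_of_lt (mul_le_mul_of_nonneg_right hE (term_nonneg n)) h3
    have h4 := card_le_card hsub
    refine le_trans (Nat.cast_le.2 h4) (le_of_eq ?_)
    congr 2
  refine ⟨?_, ?_⟩
  · refine freq_of_count _ (key (1 / 2) (by norm_num) D ?_)
    refine le_trans (le_of_eq ?_) hD1
    congr 1
    ring
  · intro ε hε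
    refine key ε hε (D / √ε) ?_
    rw [Real.sqrt_div hK.le]
    refine div_le_div_of_nonneg_right ?_ (Real.sqrt_nonneg _)
    exact le_trans (Real.sqrt_le_sqrt (by linarith)) hD1

/-- Let `0 < p₀ < p₁ ≤ 1 - e⁻²`. There is `C` such that (1) on every interval `[a,b] ⊆ [p₀,p₁]` the mean
over `p` of the variance of the chromatic number of `G(n,p)` is at most `C n / (log n)³` for all
large `n`, and (2) `Typical C p` holds for almost every `p ∈ [p₀,p₁]` and (3) for all
`p ∈ [p₀,p₁]` in a residual set: the standard deviation is at most `C √n / (log n)^{3/2}`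
infinitely often. -/
theorem result : ∀ p₀ p₁ : ℝ, 0 < p₀ → p₀ < p₁ → p₁ ≤ 1 - 1 / Real.exp 2 → ∃ C : ℝ,
    (∀ a b : ℝ, p₀ ≤ a → a < b → b ≤ p₁ → ∀ᶠ n : ℕ in atTop,
      1 / (b - a) * ∫ p in a..b, variance p n ≤ C * (n / Real.log n ^ 3)) ∧
    (∀ᵐ p : ℝ, p ∈ Set.Icc p₀ p₁ → Typical C p) ∧
    (∀ᶠ p : ℝ in residual ℝ, p ∈ Set.Icc p₀ p₁ → Typical C p) := by
  intro p₀ p₁ h0 h1 h2
  have h2' : p₁ ≤ 1 := le_trans h2 (by
    have : 0 < 1 / Real.exp 2 := by positivity
    linarith)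
  obtain ⟨C₁, hC1, hL⟩ := Pool.Agent.Helper11.PV.aLOC p₀ p₁ h0 h1 h2
  obtain ⟨C₂, hC2, hA⟩ := Pool.Agent.Helper11.PV.aAEB p₀ p₁ h0 h1 h2
  obtain ⟨C₃, hC3, hB⟩ := Pool.Agent.Helper11.PV.aBAI p₀ p₁ h0 h1 h2
  refine ⟨max C₁ (max (√(2 * C₂)) (√(2 * C₃))), ?_, ?_, ?_⟩
  · intro a b ha hab hb
    obtain ⟨n₀, hn₀⟩ := hL a b ha hab hb
    rw [eventually_atTop]
    refine ⟨n₀, fun n hn => ?_⟩
    have e : (fun p => variance p n) = fun p => Pool.Agent.Helper82.CN.vn p n :=
      funext fun p => variance_eq p n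
    rw [e]
    have h3 := hn₀ n hn
    have hba : 0 < b - a := by linarith
    rw [one_div, inv_mul_le_iff₀ hba]
    refine h3.trans ?_
    have h4 : 0 ≤ (n : ℝ) / Real.log n ^ 3 :=
      div_nonneg (Nat.cast_nonneg _) (pow_nonneg (Real.log_natCast_nonneg n) _)
    calc C₁ * (b - a) * (n / Real.log n ^ 3) = (b - a) * (C₁ * (n / Real.log n ^ 3)) := by ring
      _ ≤ _ := mul_le_mul_of_nonneg_left
        (mul_le_mul_of_nonneg_right (le_max_left _ _) h4) hba.le
  · filter_upwards [hA] with p hp hmem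
    exact typical_of C₂ _ p (by linarith [hmem.1]) (hmem.2.trans h2') hC2
      (le_trans (le_max_left _ _) (le_max_right _ _)) (hp hmem.1 hmem.2)
  · filter_upwards [hB] with p hp hmem
    exact typical_of C₃ _ p (by linarith [hmem.1]) (hmem.2.trans h2') hC3
      (le_trans (le_max_right _ _) (le_max_right _ _)) (hp hmem.1 hmem.2)

end Pool.Agent.Helper11.PV.OldTypical
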