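import Pool.Agent.Helper11.PV.Defs

/-!
# Project PV (MP_e12aa9_pr): statements with proofs

Tools: `EE_succ`, `EE_zero`, `DD_zero`, `DD_succ` (Defs), the library of `EE` (Pool/Agent/Helper82/CN/Lib.lean: `EE_const`, `EE_add`,
`EE_sub`, `EE_mul_left`, `EE_mul_right`, `EE_sum`, `EE_mono`, `EE_nonneg`, `EE_cs` (Cauchy-Schwarz), `EE_equiv`, `EE_indep`, ...).
-/

set_option autoImplicit false

namespace Pool.Agent.Helper11.PV

open Finset Filter MeasureTheory Pool.Agent.Helper82.CN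

/-! ### part A: the cube -/

/-- LSI (logarithmic Sobolev inequality), `Fin N`.

Proof. Induction on `N`; `N = 0`: both sides are `0` (`EE_zero`). Two points (`a, b ≥ 0` with weights `1-p, p`): with
`X = a², b²`, `m = (1-p) a² + p b² > 0`: `(1-p) a² log a² + p b² log b² - m log m = ∑ w X log (X/m) ≤ ∑ w X (X/m - 1) = Var X / m`
(`Real.log_le_sub_one_of_pos`; terms with `X = 0` vanish), `Var X = p(1-p)(a²-b²)² ≤ p(1-p)(a-b)²·2(a²+b²)` and
`m ≥ min(p,1-p)(a²+b²)`, so it is at most `2 max(p,1-p)(a-b)² ≤ 2(a-b)²`.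
Step (`EE_succ`): `F₀ = F(cons false ·)`, `F₁ = F(cons true ·)`, `m₀ = E F₀²`, `m₁ = E F₁²`. Then
`Ent(F²) = (1-p) Ent(F₀²) + p Ent(F₁²) + [(1-p) m₀ log m₀ + p m₁ log m₁ - m log m]`, `m = (1-p)m₀ + p m₁`. The first two terms by induction
(`DD_succ`); the bracket is the two point inequality with `a = √m₀`, `b = √m₁`, and `(√m₁ - √m₀)² ≤ E(F₁-F₀)²` (Cauchy-Schwarz
`(E F₀F₁)² ≤ m₀ m₁`), which is the term `i = 0` (`DD_zero`). -/
def StLSI : Prop := ∀ (p : ℝ) (N : ℕ) (F : (Fin N → Bool) → ℝ), 0 < p → p < 1 →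
  EE p (fun ω => F ω ^ 2 * Real.log (F ω ^ 2)) - EE p (fun ω => F ω ^ 2) *
    Real.log (EE p (fun ω => F ω ^ 2)) ≤ 2 * ∑ i, EE p (fun ω => DD F i ω ^ 2)

/-- ENL (lower bound for the entropy).

Proof. `ν = E g²`, `c = E |g|`. If `ν = 0` then `E |g| = 0` (Cauchy-Schwarz) and both sides are `0`. Otherwise for `g ≠ 0`:
`g² log g² - g² log ν - g² log s = 2 g² log(|g|/√(νs)) ≥ 2 g² (1 - √(νs)/|g|) = 2g² - 2|g|√(νs)` (`log t ≥ 1 - 1/t`); also for `g = 0`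
(`0 ≥ 0`). Expectation: `Ent(g²) - ν log s ≥ 2ν - 2c√(νs) ≥ 2ν - (ν + s c²)`. -/
def StENL : Prop := ∀ (p : ℝ) (N : ℕ) (g : (Fin N → Bool) → ℝ) (s : ℝ), 0 < p → p < 1 → 0 < s →
  EE p (fun ω => g ω ^ 2) * (1 + Real.log s) ≤ s * (EE p (fun ω => |g ω|)) ^ 2 +
    (EE p (fun ω => g ω ^ 2 * Real.log (g ω ^ 2)) - EE p (fun ω => g ω ^ 2) *
    Real.log (EE p (fun ω => g ω ^ 2)))

/-- LLI (`L¹-L²` inequality), `Fin N`.

Proof. Induction on `N`; `N = 0`: `VV = 0`. Step: `T(ω') = (1-p) F(cons false ω') + p F(cons true ω')`, `d(ω) = F ω - T(tail ω)`, i.e.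
`d(cons false ω') = -p Δ`, `d(cons true ω') = (1-p) Δ`, `Δ = F(cons true ω') - F(cons false ω')` (a function on `Fin (N+1) → Bool`:
use `Fin.tail`, `Fin.tail_cons`). Then `E d = 0` for every fixed `ω'`, so `VV F = E d² + VV T` (`EE_succ`; `E F = E T`).
ENL and LSI for `d`: `E d² (1 + log s) ≤ s (E|d|)² + 2 ∑_j E (DD d j)²`. Induction for `T`:
`VV T (1 + log s) ≤ s ∑_j (E|DD T j|)² + 2∑_j E (DD T j)²`. `DD d 0 = DD F 0`; `DD d j.succ (cons b ω') = DD F j.succ (cons b ω') - DD T j ω'`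
and `DD T j ω'` is the mean over `b` of `DD F j.succ (cons b ω')`, so `E(DD d j.succ)² + E(DD T j)² = E(DD F j.succ)²`.
`E|d| = 2p(1-p) E|DD F 0| ≤ E|DD F 0|` and `E|DD T j| ≤ E|DD F j.succ|`. Add the two inequalities. -/
def StLLI : Prop := ∀ (p : ℝ) (N : ℕ) (F : (Fin N → Bool) → ℝ) (s : ℝ), 0 < p → p < 1 → 0 < s →
  VV p F * (1 + Real.log s) ≤ s * ∑ i, (EE p (fun ω => |DD F i ω|)) ^ 2 +
    2 * ∑ i, EE p (fun ω => DD F i ω ^ 2)

/-- LLG. The same for every finite index set. Proof: `EE_equiv` with `Fintype.equivFin ι`; `DD` commutes with the reindexing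
(`Function.update` and an equivalence: `Function.update_comp_equiv` or by cases). -/
def StLLG : Prop := ∀ (p : ℝ) (ι : Type) [Fintype ι] [DecidableEq ι] (F : (ι → Bool) → ℝ) (s : ℝ),
  0 < p → p < 1 → 0 < s →
  VV p F * (1 + Real.log s) ≤ s * ∑ i, (EE p (fun ω => |DD F i ω|)) ^ 2 +
    2 * ∑ i, EE p (fun ω => DD F i ω ^ 2)

/-- RUS (Russo's formula), every finite index set, every real `p`.

Proof. For `Fin N` by induction (`EE_succ`, product rule: the derivative of `(1-q) E_q F₀ + q E_q F₁` is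
`E_p(F₁ - F₀) + (1-p) ∑ E_p DD F₀ i + p ∑ E_p DD F₁ i`; `DD_zero`, `DD_succ`), then `EE_equiv` with `Fintype.equivFin ι`.
(Or directly from the product: `HasDerivAt.finset_prod`.) -/
def StRUS : Prop := ∀ (p : ℝ) (ι : Type) [Fintype ι] [DecidableEq ι] (F : (ι → Bool) → ℝ),
  HasDerivAt (fun q : ℝ => EE q F) (∑ i, EE p (DD F i)) p

/-! ### part B: the leftover functional -/

/-- PHB (basic properties).

Proof. (1) `U = univ`, `k = 0`. (2) a feasible pair for `G'` is feasible for `G ≤ G'`. (3) if every edge of `G'` is an edge of `G` or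
contains `x`, and `(U, k)` is optimal for `G` (`Nat.sInf_mem`), then `(insert x U, k)` is feasible for `G'`. (4) `U = ∅`, `k = χ`
(finite: `SimpleGraph.Colorable`, `chromaticNumber` of a finite graph is a natural number). (5) Let `(U, k)` be optimal. If `m ≤ |U|`
there is an independent `T ⊆ U` with `|T| = l+1`; give `T` the new colour `k`: `(U \ T, k+1)` is feasible and costs `1` less, a
contradiction. So `|U| < m`, and giving every vertex of `U` its own colour `χ ≤ k + |U| ≤ k + m`, `l χ ≤ l k + l m ≤ Ph + l m`. -/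
def StPHB : Prop := ∀ (V : Type) [Fintype V] [DecidableEq V] (l : ℕ),
  (∀ G : SimpleGraph V, Ph l G ≤ Fintype.card V) ∧
  (∀ G G' : SimpleGraph V, G ≤ G' → Ph l G ≤ Ph l G') ∧
  (∀ (G G' : SimpleGraph V) (x : V), (∀ u v, G'.Adj u v → G.Adj u v ∨ u = x ∨ v = x) →
    Ph l G' ≤ Ph l G + 1) ∧
  (∀ G : SimpleGraph V, Ph l G ≤ l * G.chromaticNumber.toNat) ∧
  (∀ (G : SimpleGraph V) (m : ℕ), (∀ S : Finset V, m ≤ S.card → ∃ T ⊆ S, T.card = l + 1 ∧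
    ∀ u ∈ T, ∀ v ∈ T, ¬ G.Adj u v) → l * G.chromaticNumber.toNat ≤ Ph l G + l * m)

/-- PIV (differences of `PH`, and the number of pivotal absent edges).

Proof. (1) diagonal bits do not matter for `gr`. (2) PHB (2) and (3) (the two graphs differ only in the edge `e = s(x,y)`): the difference
of two natural numbers `a ≤ b ≤ a + 1`. (3) Let `(U, k, c)` be optimal for `gr ω`. If `ω e = false`, `e = s(u,v)`, and `DD (PH l) e ω ≠ 0`, then
`(U, k, c)` is not feasible for the graph with `e` added, so `u ≠ v`, `u ∉ U`, `v ∉ U`, `c u = c v`. For fixed `u ∉ U` the set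
`{v ∉ U : c v = c u}` is independent in `gr ω`, so it has at most `a` elements; the map `(u,v) ↦ s(u,v)` from these pairs onto the
pivotal `e` gives at most `|V| a` of them, and every term of the sum is at most `1`. -/
def StPIV : Prop := ∀ (V : Type) [Fintype V] [DecidableEq V] (l : ℕ),
  (∀ (e : Sym2 V) (ω : Sym2 V → Bool), e.IsDiag → DD (PH l) e ω = 0) ∧
  (∀ (e : Sym2 V) (ω : Sym2 V → Bool), DD (PH l) e ω = 0 ∨ DD (PH l) e ω = 1) ∧
  (∀ (ω : Sym2 V → Bool) (a : ℕ), (∀ S : Finset V, (∀ u ∈ S, ∀ v ∈ S, u ≠ v → ω s(u, v) = false) →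
    S.card ≤ a) → ∑ e : Sym2 V, (if ω e = false then DD (PH l) e ω else 0) ≤
      (Fintype.card V : ℝ) * a)

/-- RAM (Erdős-Szekeres). Proof. Induction on `h + t` (or on `h`, then `t`): `h = 0` or `t = 0`: `T = ∅`. Otherwise take `x ∈ S`; the neighbours `A`
and the non-neighbours `B` of `x` in `S \ {x}` have together at least `C(h+t,t) - 1` elements, `C(h+t,t) = C(h-1+t,t) + C(h+t-1,t-1)`,
so `|A| ≥ C(h-1+t,t)` (then a clique of size `h-1` in `A`, add `x`; or an independent set of size `t`) or `|B| ≥ C(h+t-1,t-1)`. -/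
def StRAM : Prop := ∀ (V : Type) [DecidableEq V] (G : SimpleGraph V) (h t : ℕ) (S : Finset V),
  (h + t).choose t ≤ S.card →
  (∃ T ⊆ S, T.card = h ∧ ∀ u ∈ T, ∀ v ∈ T, u ≠ v → G.Adj u v) ∨
  (∃ T ⊆ S, T.card = t ∧ ∀ u ∈ T, ∀ v ∈ T, ¬ G.Adj u v)

/-- UBD (union bound).

Proof. The indicator is at most the sum over `S ∈ powersetCard k univ` of the indicator of `ω s(u,v) = b` for all `u ≠ v` in `S`; the
probability of the latter is `bw p b ^ (k choose 2)` (as in Helper32.CN.M_PLA: product over the bits, `k choose 2` of them are fixed), and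
`n choose k ≤ n ^ k`. -/
def StUBD : Prop := ∀ (p : ℝ) (n k : ℕ) (b : Bool), 0 ≤ p → p ≤ 1 →
  PP p (fun ω : Sym2 (Fin n) → Bool => ∃ S : Finset (Fin n), S.card = k ∧
    ∀ u ∈ S, ∀ v ∈ S, u ≠ v → ω s(u, v) = b) ≤ (n : ℝ) ^ k * bw p b ^ (k.choose 2)

/-- SYM (all edges have the same influence).

Proof. Take a permutation `π` of `Fin n` with `Sym2.map π e = e'` (`e = s(a,b)`, `e' = s(c,d)`, `a ≠ b`, `c ≠ d`). `EE_equiv` for the
equivalence `Sym2.map π` of `Sym2 (Fin n)` (`Sym2.congr`/`Equiv.sym2Congr`), and `Ph l` of isomorphic graphs is the same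
(`(U,k,c) ↦ (π U, k, c ∘ π⁻¹)`). -/
def StSYM : Prop := ∀ (p : ℝ) (n l : ℕ) (e e' : Sym2 (Fin n)), ¬ e.IsDiag → ¬ e'.IsDiag →
  EE p (DD (PH l) e) = EE p (DD (PH l) e')

/-- INF (crude bound of the total influence).

Proof. `DD (PH l) e` does not depend on the bit `e`, so `E[DD e · 1{ω e = false}] = (1-p) E[DD e]` (`EE_indep` with `P i := i = e`, and the
probability of `ω e = false` is `1-p`). So `II = (1-p)⁻¹ E ∑_e [ω e = false] DD e ω ≤ (1-p₁)⁻¹ (n a + n² P(there is an independent set with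
`a+1` vertices))` (PIV (3); the sum is always at most `n²`: it has at most `n²` terms as `|Sym2 (Fin n)| = n(n+1)/2`), `a = ⌈√n⌉`. UBD with
`b = false`, `k = a+1`: the probability is at most `n^k (1-p₀)^(k(k-1)/2) = (n (1-p₀)^(a/2))^k`, at most `1/n` for large `n`
(`n (1-p₀)^(√n/2) → 0`). Hence `II ≤ (1-p₁)⁻¹(n(√n+1) + n) ≤ n^{7/4}/4` for large `n`. -/
def StINF : Prop := ∀ p₀ p₁ : ℝ, 0 < p₀ → p₀ < p₁ → p₁ < 1 → ∃ n₀ : ℕ, ∀ (n l : ℕ) (p : ℝ),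
  n₀ ≤ n → p₀ ≤ p → p ≤ p₁ → II l n p ≤ (n : ℝ) ^ ((7 : ℝ) / 4) / 4

/-! ### part C: numbers -/

/-- NUM (numbers).

Proof. `l = ⌊2 c log n⌋` with small `c > 0`; `l ≥ c log n` and `l ≥ 1` for large `n`. `h = ⌈K log n⌉ ≤ 2K log n` (WLOG `K ≥ 1`),
`l + 1 ≤ 4 c log n`. `C(h+t, t) ≤ (e(h+t)/t)^t` is not needed: with `t = l+1`, for every `x ≥ 1`: `C(h+t,t) ≤ (1+x)^{h+t}/x^t·`... simplest:
`C(h+t,t) = C(h+t,h) `, and for `y > 0`: `C(h+t,t) y^t ≤ (1+y)^{h+t} ≤ e^{y(h+t)}` (binomial theorem, one term), so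
`C(h+t,t) ≤ exp(y(h+t) + t log(1/y))`. Choose `y = 1/(24K+1)`-like with `y(2K + 4c) ≤ 1/8`, then `c` with `4 c log(1/y) ≤ 1/8`; the exponent is at most
`(1/8 + 1/8) log n`. -/
def StNUM : Prop := ∀ K : ℝ, 0 < K → ∃ c : ℝ, 0 < c ∧ ∃ n₀ : ℕ, ∀ n : ℕ, n₀ ≤ n →
  ∃ l : ℕ, 1 ≤ l ∧ c * Real.log n ≤ l ∧
    (((⌈K * Real.log n⌉₊ + (l + 1)).choose (l + 1) : ℕ) : ℝ) ≤ (n : ℝ) ^ ((1 : ℝ) / 4)

/-- CMP (comparison of `l χ` and `Ph l`). `l` does not depend on `p`.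

Proof. `K = 4/log(1/p₁) + 1`-like, `h = ⌈K log n⌉₊`, so that `n p₁^((h-1)/2) ≤ n^{-1}` and, for large `n` (`h ≥ 3`), by UBD (`b = true`)
`P(clique with h vertices) ≤ n^h p^(h(h-1)/2) = (n p^((h-1)/2))^h ≤ n^{-2}` for all `p ≤ p₁`. `l` from NUM, `m = (h+(l+1)).choose (l+1) ≤ n^{1/4}`.
If there is no clique with `h` vertices, RAM and PHB (4), (5) give `0 ≤ l χ - Ph ≤ l m`; always `0 ≤ l χ - Ph ≤ l n` (`χ ≤ n`). So the expectation is at most
`l² m² + l² n² n^{-2} ≤ l²(√n + 1) ≤ 2 l² √n`. -/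
def StCMP : Prop := ∀ p₁ : ℝ, 0 < p₁ → p₁ < 1 → ∃ c : ℝ, 0 < c ∧ ∃ n₀ : ℕ, ∀ n : ℕ, n₀ ≤ n →
  ∃ l : ℕ, 1 ≤ l ∧ c * Real.log n ≤ l ∧ ∀ p : ℝ, 0 ≤ p → p ≤ p₁ →
    EE p (fun ω : Sym2 (Fin n) → Bool => ((l : ℝ) * ch (gr ω) - PH l ω) ^ 2) ≤
      2 * (l : ℝ) ^ 2 * √(n : ℝ)

/-- PTW (the inequality for one `p`).

Proof. `F = PH l`, `M = n choose 2` = number of non-diagonal `e` (`Sym2.card_subtype_not_diag` or the like), `I = II l n p`. By PIV (1), (2):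
`|DD| = DD = DD²`, diagonal terms vanish, SYM: `E DD e = I/M` for the others. LLG with `s = n^{1/8}`:
`VV F (1 + (1/8) log n) ≤ n^{1/8} I²/M + 2I`, and `I/M ≤ (n^{7/4}/4)/(n²/4) = n^{-1/4}` (INF, `n(n-1)/2 ≥ n²/4`), so
`VV F · (log n)/8 ≤ 3 I`, `VV F ≤ 24 I/log n`. With CMP: `vn p n ≤ E(χ - (E F)/l)²` (the mean minimises) `≤ 2 E(χ - F/l)² + 2 VV F/l²
≤ 4√n + 48 I/(c² (log n)³)`. -/
def StPTW : Prop := ∀ p₀ p₁ : ℝ, 0 < p₀ → p₀ < p₁ → p₁ < 1 → ∃ C : ℝ, 0 < C ∧ ∃ n₀ : ℕ,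
  ∀ n : ℕ, n₀ ≤ n → ∃ l : ℕ, ∀ p : ℝ, p₀ ≤ p → p ≤ p₁ →
    vn p n ≤ C / Real.log n ^ 3 * II l n p + C * √(n : ℝ)

/-- INT (the budget). Proof. RUS and the fundamental theorem of calculus (`intervalIntegral.integral_eq_sub_of_hasDerivAt`; `II l n` is
continuous: a finite sum of products of polynomials in `p`): the integral is `E_{p₁} PH - E_{p₀} PH ≤ n - 0` (PHB (1)). -/
def StINT : Prop := ∀ (p₀ p₁ : ℝ) (n l : ℕ), 0 ≤ p₀ → p₀ ≤ p₁ → p₁ ≤ 1 →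
  ∫ p in p₀..p₁, II l n p ≤ n

/-- AVG (average over `p`).

Proof. PTW, INT, monotonicity of the integral (`vn · n` and `II l n` are continuous in `p`): for `n ≥ n₀` the integral is at most
`C n/(log n)³ + C √n ≤ C' n/(log n)³` (`(log n)³ ≤ C'' √n`). For `2 ≤ n < n₀`: `vn p n ≤ n²` (`0 ≤ χ ≤ n`) and `n/(log n)³ ≥ c > 0`, finitely many `n`
(or `n² ≤ n₀ (log n₀)³ · n/(log n)³`). -/
def StAVG : Prop := ∀ p₀ p₁ : ℝ, 0 < p₀ → p₀ < p₁ → p₁ < 1 → ∃ C : ℝ, 0 < C ∧ ∀ n : ℕ, 2 ≤ n →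
  ∫ p in p₀..p₁, vn p n ≤ C * (n / Real.log n ^ 3)

open Classical in
/-- AEP (almost every `p`).

Proof. `g n p = vn p n (log n)³/n`, continuous in `p`, `≥ 0` on `[0,1]`. For `p₀ < p₁` rational in `(0,1)`: `h N p = (1/N) ∑_{2 ≤ n ≤ N} g n p` has
`∫_{p₀}^{p₁} h N ≤ C`, so by Fatou (`lintegral_liminf_le` for `ENNReal.ofReal ∘ h N`) `liminf_N h N p < ∞` for almost every `p ∈ [p₀,p₁]`. For such a `p` there
is `K > 0` with `h N p ≤ K` for infinitely many `N` (`N ≥ 1`), and then (Markov) at most `ε N` of the `n ∈ [2,N]` have `g n p > K/ε`; take `C = √(K/ε)`: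
`sn p n = √(vn p n)`, `C √n/(log n)^{3/2} < sn p n` implies `g n p > K/ε`. The countably many pairs `p₀ < p₁` cover `(0,1)`. -/
def StAEP : Prop := ∀ᵐ p : ℝ, 0 < p → p < 1 → ∀ ε : ℝ, 0 < ε → ∃ C : ℝ, ∃ᶠ N : ℕ in atTop,
  (((Icc 2 N).filter (fun n : ℕ =>
    C * (√(n : ℝ) / Real.log n ^ ((3 : ℝ) / 2)) < sn p n)).card : ℝ) ≤ ε * N

end Pool.Agent.Helper11.PV
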