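import Pool.Agent.Helper11.PV.St
import Pool.Agent.Helper82.CN.St

/-!
# Project PV (MP_e12aa9_pr), part 2: the local version (all intervals of edge probabilities, uniform constant)

THEOREM. For `0 < p₀ < p₁ ≤ 1 - e⁻²` there is `C` such that for all `p₀ ≤ a < b ≤ p₁` the mean of `Var χ(G(n,p))` over `p ∈ [a,b]` is at
most `C n / (log n)³` for all large `n`. Hence for almost every `p ∈ [p₀,p₁]` and for all `p` in a residual set:
`sn p n ≤ (C/√ε) √n/(log n)^{3/2}` for a set of `n` of upper density at least `1 - ε`.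
-/

set_option autoImplicit false

namespace Pool.Agent.Helper11.PV

open Finset Filter MeasureTheory Pool.Agent.Helper82.CN

/-- the mean over `n ≤ N` of the normalised variance -/
noncomputable def hh (N : ℕ) (p : ℝ) : ℝ :=
  (∑ n ∈ Icc 2 N, vn p n * (Real.log n ^ 3 / n)) / N

/-- PT2 (PTW with the information on `l`).

Proof. Copy the proof of PTW (Pool/Agent/Helper24/PV/M_PTW.lean); `l` is the number of CMP for `p₁`, and the second and the third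
conclusion are those of CMP (`c` of CMP; `C` only depends on `c`). -/
def StPT2 : Prop := ∀ p₀ p₁ : ℝ, 0 < p₀ → p₀ < p₁ → p₁ < 1 → ∃ C : ℝ, 0 < C ∧ ∃ n₀ : ℕ,
  ∀ n : ℕ, n₀ ≤ n → ∃ l : ℕ, 1 ≤ l ∧ (∀ p : ℝ, p₀ ≤ p → p ≤ p₁ →
    vn p n ≤ C / Real.log n ^ 3 * II l n p + C * √(n : ℝ)) ∧
    ∀ p : ℝ, 0 ≤ p → p ≤ p₁ →
      EE p (fun ω : Sym2 (Fin n) → Bool => ((l : ℝ) * ch (gr ω) - PH l ω) ^ 2) ≤
        2 * (l : ℝ) ^ 2 * √(n : ℝ)

/-- LIM (first order asymptotics of `E χ`).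

Proof. `StLow` and `StUpp` (Pool/Agent/Helper82/CN/St.lean) with `ε = 1`: for large `n`
`n/(γ+1) ≤ fn p n ≤ n/(γ-1)`, `γ = ga p n = 2 log n/β - 2 log(log n/β)/β + const` (`β = bb p > 0`), so `γ/log n → 2/β`
(`log log n/log n → 0`) and `fn p n · log n/n` lies between `log n/(γ+1)` and `log n/(γ-1)`, both tend to `β/2`. -/
def StLIM : Prop := ∀ p : ℝ, 0 < p → p ≤ 1 - 1 / Real.exp 2 →
  Tendsto (fun n : ℕ => fn p n * Real.log n / n) atTop (nhds (bb p / 2))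

/-- LOC (local bound).

Proof. `C₁, n₀, l` from PT2. (i) `∫_a^b II l n = EE b (PH l) - EE a (PH l)` (RUS and the fundamental theorem of calculus; see
Pool/Agent/Helper57/PV/M_INT.lean). (ii) `PH l ≤ l χ` (PHB (4)) gives `EE b (PH l) ≤ l · fn b n`; Cauchy-Schwarz and the last conclusion of PT2
give `EE a (PH l) ≥ l · fn a n - √2 l n^{1/4}`. (iii) `EE a (PH l) ≤ n` (PHB (1)) and LIM (`fn a n ≥ bb a · n/(4 log n)` for large `n`, `bb a ≥ bb p₀`) give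
`l (fn a n - √2 n^{1/4}) ≤ n`, hence `l ≤ (8/bb p₀) log n` for large `n`. (iv) LIM: `fn b n - fn a n ≤ ((bb b - bb a)/2 + (b - a)) n/log n` for large `n`,
and `bb b - bb a = log((1-a)/(1-b)) ≤ (b-a)/(1-b) ≤ (b-a)/(1-p₁)`. So `∫_a^b II ≤ l (fn b n - fn a n) + 2 l n^{1/4} ≤ C₂ (b-a) n` for large `n`, `C₂` depending
only on `p₀, p₁`. (v) Integrate PT2 over `[a,b]` (`vn · n` and `II l n` are continuous): `≤ C₁ C₂ (b-a) n/(log n)³ + C₁ (b-a) √n`, and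
`√n ≤ n/(log n)³` for large `n`. -/
def StLOC : Prop := ∀ p₀ p₁ : ℝ, 0 < p₀ → p₀ < p₁ → p₁ ≤ 1 - 1 / Real.exp 2 → ∃ C : ℝ, 0 < C ∧
  ∀ a b : ℝ, p₀ ≤ a → a < b → b ≤ p₁ → ∃ n₀ : ℕ, ∀ n : ℕ, n₀ ≤ n →
    ∫ p in a..b, vn p n ≤ C * (b - a) * (n / Real.log n ^ 3)

/-- LCH (average over `n`). Same `C` for all intervals.

Proof. `C₀` from LOC, `C = 2 C₀`. `∫_a^b hh N = (1/N) ∑_{2 ≤ n ≤ N} (log n)³/n ∫_a^b vn p n dp`; the terms with `n ≥ n₀` are at most `C₀ (b-a)`, the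
others (fewer than `n₀` terms) have a sum at most `M` (independent of `N`), and `M/N ≤ C₀ (b-a)` for large `N`. (`vn · n` is continuous.) -/
def StLCH : Prop := ∀ p₀ p₁ : ℝ, 0 < p₀ → p₀ < p₁ → p₁ ≤ 1 - 1 / Real.exp 2 → ∃ C : ℝ, 0 < C ∧
  ∀ a b : ℝ, p₀ ≤ a → a < b → b ≤ p₁ → ∃ N₀ : ℕ, ∀ N : ℕ, N₀ ≤ N →
    ∫ p in a..b, hh N p ≤ C * (b - a)

/-- AEB (almost every `p`, uniform constant).

Proof. `C₀` from LCH, `C = 2 C₀`. Suppose not: then for some `N₁` the closed set `B = {p ∈ [p₀,p₁] : 2 C₀ ≤ hh N p for all N ≥ N₁}` has positive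
measure (the exceptional set is contained in the union of these sets over `N₁`; `hh N` is continuous). Outer regularity: an open `O ⊇ B` with
`vol O ≤ (3/2) vol B`; `O` is a countable disjoint union of open intervals, so for one of them `J`: `vol J ≤ (3/2) vol (B ∩ J)`, `vol (B ∩ J) > 0`
(replace `J` by `J ∩ [p₀,p₁]`). Or use the Lebesgue density theorem. Then for large `N`
`C₀ vol J ≥ ∫_J hh N ≥ 2 C₀ vol (B ∩ J) ≥ (4/3) C₀ vol J > C₀ vol J` (`hh N ≥ 0` on `[0,1]`), a contradiction. -/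
def StAEB : Prop := ∀ p₀ p₁ : ℝ, 0 < p₀ → p₀ < p₁ → p₁ ≤ 1 - 1 / Real.exp 2 → ∃ C : ℝ, 0 < C ∧
  ∀ᵐ p : ℝ, p₀ ≤ p → p ≤ p₁ → ∃ᶠ N : ℕ in atTop, hh N p ≤ C

/-- BAI (generic `p`, uniform constant).

Proof. `C₀` from LCH, `C = 2 C₀`. For every `N₁` the set `U = {p | p < p₀} ∪ {p | p₁ < p} ∪ ⋃_{N ≥ N₁} {p | hh N p < C}` is open (`hh N` is continuous: a
finite sum of polynomials in `p`) and dense: an open interval that meets `[p₀,p₁]` and misses the first two sets contains `[a,b]`, `p₀ ≤ a < b ≤ p₁` (or it meets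
`{p < p₀}` or `{p > p₁}`), and if `hh N ≥ 2C₀` on `[a,b]` for some large `N` then the integral is at least `2C₀(b-a)`, against LCH. The intersection over `N₁`
is residual (`mem_residual`, or `countable_iInter_mem` for the filter `residual ℝ` and `IsOpen.. residual_of_dense_open`). -/
def StBAI : Prop := ∀ p₀ p₁ : ℝ, 0 < p₀ → p₀ < p₁ → p₁ ≤ 1 - 1 / Real.exp 2 → ∃ C : ℝ, 0 < C ∧
  ∀ᶠ p : ℝ in residual ℝ, p₀ ≤ p → p ≤ p₁ → ∃ᶠ N : ℕ in atTop, hh N p ≤ C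

open Classical in
/-- MKV (Markov).

Proof. Let `N ≥ 1` with `hh N p ≤ C`. For `n ≥ 2` with `√(C/ε) √n/(log n)^{3/2} < sn p n` we have `vn p n (log n)³/n > C/ε` (`sn² = vn`,
`vn ≥ 0`); if there were more than `ε N` such `n ∈ [2,N]` the sum would be `> C N` (all terms are `≥ 0`). -/
def StMKV : Prop := ∀ p C : ℝ, 0 ≤ p → p ≤ 1 → 0 < C → (∃ᶠ N : ℕ in atTop, hh N p ≤ C) →
  ∀ ε : ℝ, 0 < ε → ∃ᶠ N : ℕ in atTop, (((Icc 2 N).filter (fun n : ℕ =>
    √(C / ε) * (√(n : ℝ) / Real.log n ^ ((3 : ℝ) / 2)) < sn p n)).card : ℝ) ≤ ε * N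

end Pool.Agent.Helper11.PV
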